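import Pool.Agent.H78.Base

namespace Pool.Agent.Results.MP_2beb52_al.Gap

open Pool.Agent.H78.Base

/-- A non-trivial finite group whose base size set contains 4 but not 3. -/
theorem result : ∃ (G : Type) (_ : Group G), Finite G ∧ Nontrivial G ∧
    4 ∈ BaseSizes G ∧ 3 ∉ BaseSizes G :=
  main

end Pool.Agent.Results.MP_2beb52_al.Gap
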